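import Pool.Agent.Lib.MP_defcf3_al.FR.NDefs
import Pool.Agent.Lib.MP_defcf3_al.BRP.H72.QuasiB

/-! N-EX: finite ℓ-torsion and no quasicyclic subgroup give a bounded exponent. -/

set_option autoImplicit false

namespace Pool.Agent.Lib.MP_defcf3_al.FR.H72

universe u

open BR7 BRP

/-- A decreasing sequence of nonempty sets, the first one finite, has a common point. -/
theorem exists_common {α : Type*} (S : ℕ → Set α) (hanti : ∀ n, S (n + 1) ⊆ S n) (hfin : (S 0).Finite)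
    (hne : ∀ n, (S n).Nonempty) : ∃ x, ∀ n, x ∈ S n := by
  have hA : Antitone S := antitone_nat_of_succ_le hanti
  by_contra hcon
  push Not at hcon
  choose m hm using hcon
  obtain ⟨N, hN⟩ : ∃ N, ∀ x ∈ S 0, m x ≤ N := by
    obtain ⟨N, hN⟩ := (hfin.image m).bddAbove
    exact ⟨N, fun x hx => hN ⟨x, hx, rfl⟩⟩
  obtain ⟨x, hx⟩ := hne N
  exact hm x (hA (hN x (hA (Nat.zero_le N) hx)) hx)

/-- The elements of order a power of ℓ. -/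
def Tor {C : Type*} [CommGroup C] (ℓ : ℕ) : Subgroup C where
  carrier := {c | ∃ j : ℕ, c ^ (ℓ ^ j) = 1}
  mul_mem' := by
    rintro a b ⟨i, hi⟩ ⟨j, hj⟩
    refine ⟨i + j, ?_⟩
    rw [mul_pow, pow_add, pow_mul, hi, one_pow, one_mul, mul_comm (ℓ ^ i) (ℓ ^ j), pow_mul, hj, one_pow]
  one_mem' := ⟨0, one_pow _⟩
  inv_mem' := by
    rintro a ⟨i, hi⟩
    exact ⟨i, by rw [inv_pow, hi, inv_one]⟩

theorem mem_Tor {C : Type*} [CommGroup C] {ℓ : ℕ} {c : C} : c ∈ (Tor ℓ : Subgroup C) ↔ ∃ j : ℕ, c ^ (ℓ ^ j) = 1 :=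
  Iff.rfl

/-- The intersection of the groups of ℓ^n-th powers of ℓ-primary elements. -/
def Div {C : Type*} [CommGroup C] (ℓ : ℕ) : Subgroup C where
  carrier := {c | ∀ n : ℕ, ∃ x ∈ (Tor ℓ : Subgroup C), x ^ (ℓ ^ n) = c}
  mul_mem' := by
    intro a b ha hb n
    obtain ⟨x, hx, rfl⟩ := ha n
    obtain ⟨y, hy, rfl⟩ := hb n
    exact ⟨x * y, mul_mem hx hy, mul_pow x y _⟩
  one_mem' := fun n => ⟨1, one_mem _, one_pow _⟩
  inv_mem' := by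
    intro a ha n
    obtain ⟨x, hx, rfl⟩ := ha n
    exact ⟨x⁻¹, inv_mem hx, inv_pow x _⟩

theorem mem_Div {C : Type*} [CommGroup C] {ℓ : ℕ} {c : C} :
    c ∈ (Div ℓ : Subgroup C) ↔ ∀ n : ℕ, ∃ x ∈ (Tor ℓ : Subgroup C), x ^ (ℓ ^ n) = c :=
  Iff.rfl

theorem Div_tors {C : Type*} [CommGroup C] {ℓ : ℕ} (c : C) (hc : c ∈ (Div ℓ : Subgroup C)) :
    ∃ j : ℕ, c ^ (ℓ ^ j) = 1 := by
  obtain ⟨x, hx, h⟩ := hc 0
  rw [pow_zero, pow_one] at h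
  rw [← h]
  exact hx

theorem Div_div {C : Type*} [CommGroup C] {ℓ : ℕ} (hfin : Set.Finite {c : C | c ^ ℓ = 1}) (c : C)
    (hc : c ∈ (Div ℓ : Subgroup C)) : ∃ y ∈ (Div ℓ : Subgroup C), y ^ ℓ = c := by
  obtain ⟨y, hy⟩ := exists_common (fun n => {y : C | y ^ ℓ = c ∧ ∃ x ∈ (Tor ℓ : Subgroup C), x ^ (ℓ ^ n) = y})
    (fun n => by
      rintro y ⟨h1, x, hx, h2⟩
      refine ⟨h1, x ^ ℓ, pow_mem hx ℓ, ?_⟩
      rw [← pow_mul, ← pow_succ', h2])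
    (by
      obtain ⟨x, hx, h⟩ := hc 1
      rw [pow_one] at h
      refine (hfin.image fun z => x * z).subset ?_
      rintro y ⟨h1, -⟩
      refine ⟨x⁻¹ * y, ?_, by simp⟩
      change (x⁻¹ * y) ^ ℓ = 1
      rw [mul_pow, inv_pow, h, h1, inv_mul_cancel])
    (fun n => by
      obtain ⟨x, hx, h⟩ := hc (n + 1)
      refine ⟨x ^ (ℓ ^ n), ?_, x, hx, rfl⟩
      rw [← pow_mul, ← pow_succ, h])
  exact ⟨y, fun n => (hy n).2, (hy 0).1⟩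

theorem Div_ne_bot {C : Type*} [CommGroup C] {ℓ : ℕ} (hfin : Set.Finite {c : C | c ^ ℓ = 1})
    (h : ∀ n : ℕ, ∃ c ∈ (Tor ℓ : Subgroup C), c ^ (ℓ ^ n) ≠ 1) : (Div ℓ : Subgroup C) ≠ ⊥ := by
  classical
  obtain ⟨z, hz⟩ := exists_common
    (fun n => {z : C | (z ^ ℓ = 1 ∧ z ≠ 1) ∧ ∃ x ∈ (Tor ℓ : Subgroup C), x ^ (ℓ ^ n) = z})
    (fun n => by
      rintro y ⟨h1, x, hx, h2⟩
      refine ⟨h1, x ^ ℓ, pow_mem hx ℓ, ?_⟩
      rw [← pow_mul, ← pow_succ', h2])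
    (hfin.subset fun y hy => hy.1.1)
    (fun n => by
      obtain ⟨c, hc, hcn⟩ := h n
      have hex : ∃ m : ℕ, c ^ (ℓ ^ m) = 1 := hc
      have hm := Nat.find_spec hex
      have hnm : n < Nat.find hex := by
        by_contra hle
        push Not at hle
        apply hcn
        obtain ⟨k, hk⟩ := Nat.exists_eq_add_of_le hle
        rw [hk, pow_add, pow_mul, hm, one_pow]
      obtain ⟨l, hl⟩ := Nat.exists_eq_add_of_lt hnm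
      have hmin : c ^ (ℓ ^ (n + l)) ≠ 1 := Nat.find_min hex (by omega)
      refine ⟨c ^ (ℓ ^ (n + l)), ⟨?_, hmin⟩, c ^ (ℓ ^ l), pow_mem hc _, ?_⟩
      · rw [← pow_mul, ← pow_succ, ← hl]
        exact hm
      · rw [← pow_mul, ← pow_add, Nat.add_comm l n])
  intro hbot
  have h1 : z ∈ (Div ℓ : Subgroup C) := fun n => (hz n).2
  rw [hbot, Subgroup.mem_bot] at h1
  exact (hz 0).1.2 h1

theorem stEX (ℓ : ℕ) [Fact ℓ.Prime] [Fact (Odd ℓ)] : StEX.{u} ℓ := by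
  intro F Ω _ _ _ _ hfin hq
  by_contra hcon
  push Not at hcon
  apply hq
  refine BRP.H72.quasib (ℓ := ℓ) F Ω (Div (C := H2 (Ω ≃ₐ[F] Ω) Ωˣ) ℓ)
    (Div_ne_bot hfin fun n => ?_) (fun x hx => Div_tors x hx) (fun x hx => Div_div hfin x hx)
  have h1 := hcon n
  unfold ExpBd at h1
  push Not at h1
  obtain ⟨f, hf, ⟨j, hj⟩, hn⟩ := h1
  have hmk : ∀ g : Z2 (Ω ≃ₐ[F] Ω) Ωˣ, (QuotientGroup.mk g : H2 (Ω ≃ₐ[F] Ω) Ωˣ) = 1 ↔
      (g : (Ω ≃ₐ[F] Ω) → (Ω ≃ₐ[F] Ω) → Ωˣ) ∈ B2 (Ω ≃ₐ[F] Ω) Ωˣ := by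
    intro g
    rw [QuotientGroup.eq_one_iff, Subgroup.mem_subgroupOf]
  refine ⟨(QuotientGroup.mk ⟨f, hf⟩ : H2 (Ω ≃ₐ[F] Ω) Ωˣ), ⟨j, ?_⟩, ?_⟩
  · rw [← QuotientGroup.mk_pow, hmk]
    exact hj
  · intro h2
    rw [← QuotientGroup.mk_pow, hmk] at h2
    exact hn h2

end Pool.Agent.Lib.MP_defcf3_al.FR.H72
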